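import Pool.Agent.Helper90.Kak.Base
import Pool.Agent.Helper8.Kak.L1Main
import Pool.Agent.Helper6.Kak.HDefs

/-!
# Hybrid step: the derived systems, the top space and the random variables
-/

set_option autoImplicit false

namespace Pool.Agent.Helper8.Hyb

open Finset Pool.Agent.Helper8.Kak Pool.Agent.Helper6.Kak Pool.Agent.Helper90.Kak

/-- the variables of `YY` -/
def emb : VH → Option V6
  | .K => some .K
  | .l0 => some .l0
  | .l1 => some .l1
  | .l2 => some .l2
  | .T0 => some .T0
  | .T1 => some .T1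
  | .S => some .S
  | .R => some .R
  | .b => some .b
  | .b' => some .b'
  | .P0 => some .P0
  | .P1 => some .P1
  | .PS => some .PS
  | .PR => some .PR
  | .Pb => some .Pb
  | .Pb' => some .Pb'
  | .tw => some .tw
  | .tz => some .tz
  | .w => some .w
  | .z => some .z
  | .kq => none
  | .Q => none
  | .kz => none
  | .Qz => none
  | .Pz => none

/-- the rules without `Pz` -/
def rules0 : List (VH × List (Finset VH)) :=
  [(.P0, [{.l0, .T0}, {.l1, .T0}]), (.P1, [{.l0, .T1}, {.l2, .T1}]), (.PS, [{.l0, .S}]),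
   (.PR, [{.l1, .R}]), (.Pb, [{.l2, .b}]), (.Pb', [{.l2, .b'}]), (.tw, [{.T0, .T1, .S, .R}]),
   (.tz, [{.tw, .T1, .b, .b'}]), (.w, [{.l0, .l1, .T1, .tw}]), (.z, [{.l2, .l1, .b, .tz}])]

theorem rules_eq : Hy.rules = rules0 ++ [(.Pz, [{.l2, .b, .kz}])] := rfl

/-- membership in the (iterated) closure -/
structure InCl {ι : Type} [DecidableEq ι] (rules : List (ι × List (Finset ι))) (v : ι)
    (A : Finset ι) : Prop where
  h : v ∈ cl rules (cl rules A)

/-- the rules hold for the variables of `YY` -/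
theorem rules0_ok : ∀ r ∈ rules0, ∃ v, emb r.1 = some v ∧ ∀ D ∈ r.2, ∃ D' : Finset V6,
    (∀ i ∈ D', some i ∈ D.image emb) ∧ InCl Y6.rules v D' := by
  intro r hr
  simp only [rules0, List.mem_cons, List.not_mem_nil, or_false] at hr
  rcases hr with rfl | rfl | rfl | rfl | rfl | rfl | rfl | rfl | rfl | rfl
  · refine ⟨.P0, rfl, fun D hD => ?_⟩
    simp only [List.mem_cons, List.not_mem_nil, or_false] at hD
    rcases hD with rfl | rfl
    · exact ⟨{.l0, .T0}, by decide +kernel, ⟨by decide +kernel⟩⟩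
    · exact ⟨{.l1, .T0}, by decide +kernel, ⟨by decide +kernel⟩⟩
  · refine ⟨.P1, rfl, fun D hD => ?_⟩
    simp only [List.mem_cons, List.not_mem_nil, or_false] at hD
    rcases hD with rfl | rfl
    · exact ⟨{.l0, .T1}, by decide +kernel, ⟨by decide +kernel⟩⟩
    · exact ⟨{.l2, .T1}, by decide +kernel, ⟨by decide +kernel⟩⟩
  · refine ⟨.PS, rfl, fun D hD => ?_⟩
    simp only [List.mem_cons, List.not_mem_nil, or_false] at hD
    subst hD
    exact ⟨{.l0, .S}, by decide +kernel, ⟨by decide +kernel⟩⟩
  · refine ⟨.PR, rfl, fun D hD => ?_⟩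
    simp only [List.mem_cons, List.not_mem_nil, or_false] at hD
    subst hD
    exact ⟨{.l1, .R}, by decide +kernel, ⟨by decide +kernel⟩⟩
  · refine ⟨.Pb, rfl, fun D hD => ?_⟩
    simp only [List.mem_cons, List.not_mem_nil, or_false] at hD
    subst hD
    exact ⟨{.l2, .b}, by decide +kernel, ⟨by decide +kernel⟩⟩
  · refine ⟨.Pb', rfl, fun D hD => ?_⟩
    simp only [List.mem_cons, List.not_mem_nil, or_false] at hD
    subst hD
    exact ⟨{.l2, .b'}, by decide +kernel, ⟨by decide +kernel⟩⟩
  · refine ⟨.tw, rfl, fun D hD => ?_⟩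
    simp only [List.mem_cons, List.not_mem_nil, or_false] at hD
    subst hD
    exact ⟨{.T0, .T1, .S, .R}, by decide +kernel, ⟨by decide +kernel⟩⟩
  · refine ⟨.tz, rfl, fun D hD => ?_⟩
    simp only [List.mem_cons, List.not_mem_nil, or_false] at hD
    subst hD
    exact ⟨{.tw, .T1, .b, .b'}, by decide +kernel, ⟨by decide +kernel⟩⟩
  · refine ⟨.w, rfl, fun D hD => ?_⟩
    simp only [List.mem_cons, List.not_mem_nil, or_false] at hD
    subst hD
    exact ⟨{.l0, .l1, .T1, .tw}, by decide +kernel, ⟨by decide +kernel⟩⟩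
  · refine ⟨.z, rfl, fun D hD => ?_⟩
    simp only [List.mem_cons, List.not_mem_nil, or_false] at hD
    subst hD
    exact ⟨{.l2, .l1, .b, .tz}, by decide +kernel, ⟨by decide +kernel⟩⟩

section

variable {Ω Ω' : Type} [Fintype Ω] [Fintype Ω'] {p : Ω → ℝ} {p' : Ω' → ℝ}

omit [Fintype Ω] in
theorem cl_rel2 {ι : Type} [DecidableEq ι] {V : ι → Setoid Ω} {rules : List (ι × List (Finset ι))}
    (hr : Valid p V rules) (A : Finset ι) {ω ω' : Ω} (h0 : 0 < p ω) (h0' : 0 < p ω')
    (h : ∀ i ∈ A, V i ω ω') (v : ι) (hv : InCl rules v A) : V v ω ω' :=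
  cl_rel hr _ h0 h0' (cl_rel hr A h0 h0' h) v hv.h

omit [Fintype Ω] [Fintype Ω'] in
theorem valid0 {V : V6 → Setoid Ω} {V' : VH → Setoid Ω'} {φ : Ω' → Ω} (h : Valid p V Y6.rules)
    (hpos : ∀ ω, 0 < p' ω → 0 < p (φ ω))
    (hV : ∀ v u ω ω', emb v = some u → (V' v ω ω' ↔ V u (φ ω) (φ ω'))) :
    Valid p' V' rules0 := by
  intro r hr D hD ω ω' h0 h0' hD'
  obtain ⟨v, hv, h1⟩ := rules0_ok r hr
  obtain ⟨D', h2, h3⟩ := h1 D hD
  rw [hV _ _ _ _ hv]
  have h4 : ∀ i ∈ D', V i (φ ω) (φ ω') := by
    intro i hi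
    obtain ⟨j, hj, hji⟩ := Finset.mem_image.1 (h2 i hi)
    exact (hV j i ω ω' hji).1 (hD' j hj)
  exact cl_rel2 h D' (hpos _ h0) (hpos _ h0') h4 v h3

end

section

variable {m M : ℕ} {G : Geo m M} (S : PSys G)

/-- the random variables on `YY` -/
noncomputable def VY : VH → Setoid (YY S.Ω) := fun v =>
  match emb v with
  | some u => VV S u
  | none => ⊤

theorem VY_some {v : VH} {u : V6} (h : emb v = some u) : VY S v = VV S u := by
  unfold VY
  rw [h]

theorem HH_image {ι κ : Type} {Ω : Type} [Fintype Ω] {p : Ω → ℝ} {V : ι → Setoid Ω}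
    {V' : κ → Setoid Ω} {A : Finset ι} {B : Finset κ} (h : A.inf V = B.inf V') :
    HH p V A = HH p V' B := by
  unfold HH
  rw [h]

/-- entropies of families of variables of `YY` -/
theorem HHY (A : Finset VH) (A' : Finset V6) (h : A.image emb = A'.image some) :
    HH (pY S) (VY S) A = HH (pY S) (VV S) A' := by
  refine HH_image (Setoid.ext fun y y' => ?_)
  rw [inf_rel, inf_rel]
  constructor
  · intro h1 i hi
    have h2 : some i ∈ A.image emb := by
      rw [h]
      exact Finset.mem_image_of_mem _ hi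
    obtain ⟨j, hj, hji⟩ := Finset.mem_image.1 h2
    have h3 := h1 j hj
    rwa [VY_some S hji] at h3
  · intro h1 j hj
    have h2 : emb j ∈ A'.image some := by
      rw [← h]
      exact Finset.mem_image_of_mem _ hj
    obtain ⟨i, hi, hij⟩ := Finset.mem_image.1 h2
    rw [VY_some S hij.symm]
    exact h1 i hi

theorem validY : Valid (pY S) (VY S) Hy.rules := by
  rw [rules_eq]
  intro r hr
  rw [List.mem_append] at hr
  rcases hr with hr | hr
  · exact valid0 (p := pY S) (valid6 S) (fun ω h => h)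
      (fun v u ω ω' h => by rw [VY_some S h]) r hr
  · rw [List.mem_singleton] at hr
    subst hr
    intro D hD ω ω' _ _ _
    trivial

theorem eqs {A : Finset VH} {B : Finset V6} (x : ℝ) (hx : HH (pY S) (VV S) B = x)
    (h : A.image emb = B.image some) : HH (pY S) (VY S) A = x := (HHY S A B h).trans hx

/-- the entropies on `YY` -/
theorem baseY : Hy.Base (pY S) (VY S) S.eK S.eL S.eB S.eT S.eP S.eB2 (Real.log M) (Lam S) := by
  have hb := base S
  have hp := hpY S
  exact {
    hp := hp
    hr := validY S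
    hK := eqs S _ hb.hK (by decide +kernel)
    hL0 := eqs S _ hb.hL0 (by decide +kernel)
    hL1 := eqs S _ hb.hL1 (by decide +kernel)
    hL2 := eqs S _ hb.hL2 (by decide +kernel)
    h00 := eqs S _ hb.h00 (by decide +kernel)
    h01 := eqs S _ hb.h01 (by decide +kernel)
    h0S := eqs S _ hb.h0S (by decide +kernel)
    h10 := eqs S _ hb.h10 (by decide +kernel)
    h1R := eqs S _ hb.h1R (by decide +kernel)
    h21 := eqs S _ hb.h21 (by decide +kernel)
    h2b := eqs S _ hb.h2b (by decide +kernel)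
    h2b' := eqs S _ hb.h2b' (by decide +kernel)
    h010 := eqs S _ hb.h010 (by decide +kernel)
    h021 := eqs S _ hb.h021 (by decide +kernel)
    hT0 := eqs S _ hb.hT0 (by decide +kernel)
    hT1 := eqs S _ hb.hT1 (by decide +kernel)
    hTS := eqs S _ hb.hTS (by decide +kernel)
    hTR := eqs S _ hb.hTR (by decide +kernel)
    hTb := eqs S _ hb.hTb (by decide +kernel)
    hTb' := eqs S _ hb.hTb' (by decide +kernel)
    hP0 := eqs S _ hb.hP0 (by decide +kernel)
    hP1 := eqs S _ hb.hP1 (by decide +kernel)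
    hPS := eqs S _ hb.hPS (by decide +kernel)
    hPR := eqs S _ hb.hPR (by decide +kernel)
    hPb := eqs S _ hb.hPb (by decide +kernel)
    hPb' := eqs S _ hb.hPb' (by decide +kernel)
    tot := by
      have e := HHY S {.K, .l0, .l1, .l2, .T0, .T1, .S, .R, .b, .b'}
        {.K, .l0, .l1, .l2, .T0, .T1, .S, .R, .b, .b'} (by decide +kernel)
      rw [e]
      exact hb.tot
    lam1 := by
      have e1 := HHY S {.K, .S, .R, .PS, .PR} {.K, .S, .R, .PS, .PR} (by decide +kernel)
      have e2 := HHY S {.K, .S, .R} {.K, .S, .R} (by decide +kernel)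
      rw [e1, e2]
      exact hb.lam1
    lam2 := by
      have e1 := HHY S {.K, .T0, .b, .P0, .Pb} {.K, .T0, .b, .P0, .Pb} (by decide +kernel)
      have e2 := HHY S {.K, .T0, .b} {.K, .T0, .b} (by decide +kernel)
      rw [e1, e2]
      exact hb.lam2
    eTM := hb.eTM
    eBM := by
      have h1 := S.κ_nonneg
      unfold Sys.κ at h1
      linarith }

/-- the first derived system: the line `l0` and the height `S`, given `w` and its height -/
noncomputable def Sw : Sys G :=
  sysOf (hpY S) (VY S) ({.K, .w, .tw} : Finset VH) (fun y => S.l (d0 y)) (fun y => S.T (dS y))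

/-- the sample space of the first glued pair -/
abbrev ZW (Ω : Type) : Type := YY Ω × YY Ω

/-- the law of the first glued pair -/
noncomputable abbrev pw : ZW S.Ω → ℝ := pZ (Sw S)

theorem hpw : IsProb (pw S) := glue_isProb (Sw S).hp (Sw S).hp fun _ => rfl

theorem MPw : MP (pw S) (pY S) Prod.fst := glue_fst (Sw S).hp.1 fun _ => rfl

theorem MPw' : MP (pw S) (pY S) Prod.snd := glue_snd (Sw S).hp.1 fun _ => rfl

/-- the links of the first gluing -/
theorem lkw {z : ZW S.Ω} (h : 0 < pw S z) :
    (Sw S).K z.1 z.2 ∧ S.T (dS z.1) = S.T (dS z.2) ∧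
      G.P (S.l (d0 z.1)) (S.T (dS z.1)) = G.P (S.l (d0 z.2)) (S.T (dS z.2)) :=
  fP_eq.1 (glue_link h)

/-- the random variables on the first glued space -/
noncomputable def VW : VH → Setoid (ZW S.Ω)
  | .kq => Setoid.ker (kZ (Sw S))
  | .Q => Setoid.ker (QZ (Sw S))
  | v => Setoid.comap Prod.fst (VY S v)

theorem VW_some {v : VH} {u : V6} (h : emb v = some u) :
    VW S v = Setoid.comap Prod.fst (VV S u) := by
  rw [← VY_some S h]
  cases v <;> first | rfl | (exact absurd h nofun)

/-- the second derived system: the line `l2` and the height `b'`, given `z`, its height, and the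
tube of the first glued pair -/
noncomputable def Sz : Sys G :=
  sysOf (hpw S) (VW S) ({.K, .z, .tz, .kq, .Q} : Finset VH)
    (fun y => S.l (S.σ (d1 y.1))) (fun y => S.T (db' y.1))

/-- the sample space of the second glued pair -/
abbrev Zz (Ω : Type) : Type := ZW Ω × ZW Ω

/-- the law of the second glued pair -/
noncomputable abbrev pzz : Zz S.Ω → ℝ := pZ (Sz S)

theorem hpz : IsProb (pzz S) := glue_isProb (Sz S).hp (Sz S).hp fun _ => rfl

theorem MPz : MP (pzz S) (pw S) Prod.fst := glue_fst (Sz S).hp.1 fun _ => rfl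

theorem MPz' : MP (pzz S) (pw S) Prod.snd := glue_snd (Sz S).hp.1 fun _ => rfl

/-- the links of the second gluing -/
theorem lkz {z : Zz S.Ω} (h : 0 < pzz S z) :
    (Sz S).K z.1 z.2 ∧ S.T (db' z.1.1) = S.T (db' z.2.1) ∧
      G.P (S.l (S.σ (d1 z.1.1))) (S.T (db' z.1.1))
        = G.P (S.l (S.σ (d1 z.2.1))) (S.T (db' z.2.1)) :=
  fP_eq.1 (glue_link h)

/-- the coarse cell of the point of `l2` at height `b` -/
noncomputable def vPz (z : Zz S.Ω) : Fin m → ℤ :=
  cell ((1 / 2) ^ kZ (Sz S) z) (pnt G.x G.v (S.l (S.σ (d1 z.1.1))) (S.T (db z.1.1)))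

/-- the random variables on the top space -/
noncomputable def VZ : VH → Setoid (Zz S.Ω)
  | .kz => Setoid.ker (kZ (Sz S))
  | .Qz => Setoid.ker (QZ (Sz S))
  | .Pz => Setoid.ker (vPz S)
  | v => Setoid.comap Prod.fst (VW S v)

theorem VZ_some {v : VH} {u : V6} (h : emb v = some u) :
    VZ S v = Setoid.comap (fun z => z.1.1) (VV S u) := by
  have h1 : VZ S v = Setoid.comap Prod.fst (VW S v) := by
    cases v <;> first | rfl | (exact absurd h nofun)
  rw [h1, VW_some S h]
  rfl

theorem validW : Valid (pw S) (VW S) Hy.rules := by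
  rw [rules_eq]
  intro r hr
  rw [List.mem_append] at hr
  rcases hr with hr | hr
  · exact valid0 (p := pY S) (valid6 S) (fun ω h => (MPw S).pos (hpw S).1 h)
      (fun v u ω ω' h => by rw [VW_some S h]; rfl) r hr
  · rw [List.mem_singleton] at hr
    subst hr
    intro D hD ω ω' _ _ _
    trivial

theorem validZ : Valid (pzz S) (VZ S) Hy.rules := by
  rw [rules_eq]
  intro r hr
  rw [List.mem_append] at hr
  rcases hr with hr | hr
  · exact valid0 (p := pY S) (valid6 S)
      (fun ω h => (MPw S).pos (hpw S).1 ((MPz S).pos (hpz S).1 h))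
      (fun v u ω ω' h => by rw [VZ_some S h]; rfl) r hr
  · rw [List.mem_singleton] at hr
    subst hr
    intro D hD ω ω' _ _ h
    simp only [List.mem_singleton] at hD
    subst hD
    simp only [Finset.mem_insert, Finset.mem_singleton, forall_eq_or_imp, forall_eq] at h
    obtain ⟨h1, h2, h3⟩ := h
    have e1 : S.l (S.σ (d1 ω.1.1)) = S.l (S.σ (d1 ω'.1.1)) := h1
    have e2 : S.T (db ω.1.1) = S.T (db ω'.1.1) := h2
    have e3 : kZ (Sz S) ω = kZ (Sz S) ω' := h3
    have : vPz S ω = vPz S ω' := by
      unfold vPz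
      rw [e1, e2, e3]
    exact this

/-- entropies of families of variables of `YY` on the first glued space -/
theorem HHw (A : Finset VH) (h : .kq ∉ A ∧ .Q ∉ A) :
    HH (pw S) (VW S) A = HH (pY S) (VY S) A := by
  refine HH_coord (hpw S) (MPw S) _ _ (A.inf (VY S)) fun z z' _ _ => ?_
  rw [inf_rel]
  refine forall₂_congr fun i hi => ?_
  cases i with
  | kq => exact absurd hi h.1
  | Q => exact absurd hi h.2
  | _ => exact Iff.rfl

/-- entropies of families of variables of the first glued space on the top space -/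
theorem HHz (A : Finset VH) (h : .kz ∉ A ∧ .Qz ∉ A ∧ .Pz ∉ A) :
    HH (pzz S) (VZ S) A = HH (pw S) (VW S) A := by
  refine HH_coord (hpz S) (MPz S) _ _ (A.inf (VW S)) fun z z' _ _ => ?_
  rw [inf_rel]
  refine forall₂_congr fun i hi => ?_
  cases i with
  | kz => exact absurd hi h.1
  | Qz => exact absurd hi h.2.1
  | Pz => exact absurd hi h.2.2
  | _ => exact Iff.rfl

/-- entropies of families of variables of `YY` on the top space -/
theorem HHt (A : Finset VH) (h : (.kz ∉ A ∧ .Qz ∉ A ∧ .Pz ∉ A) ∧ .kq ∉ A ∧ .Q ∉ A) :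
    HH (pzz S) (VZ S) A = HH (pY S) (VY S) A := by
  rw [HHz S A h.1, HHw S A h.2]

/-- the entropies on the first glued space -/
theorem baseW : Hy.Base (pw S) (VW S) S.eK S.eL S.eB S.eT S.eP S.eB2 (Real.log M) (Lam S) := by
  have hb := baseY S
  exact {
    hp := hpw S
    hr := validW S
    hK := (HHw S _ (by decide +kernel)).trans hb.hK
    hL0 := (HHw S _ (by decide +kernel)).trans hb.hL0
    hL1 := (HHw S _ (by decide +kernel)).trans hb.hL1
    hL2 := (HHw S _ (by decide +kernel)).trans hb.hL2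
    h00 := (HHw S _ (by decide +kernel)).trans hb.h00
    h01 := (HHw S _ (by decide +kernel)).trans hb.h01
    h0S := (HHw S _ (by decide +kernel)).trans hb.h0S
    h10 := (HHw S _ (by decide +kernel)).trans hb.h10
    h1R := (HHw S _ (by decide +kernel)).trans hb.h1R
    h21 := (HHw S _ (by decide +kernel)).trans hb.h21
    h2b := (HHw S _ (by decide +kernel)).trans hb.h2b
    h2b' := (HHw S _ (by decide +kernel)).trans hb.h2b'
    h010 := (HHw S _ (by decide +kernel)).trans hb.h010
    h021 := (HHw S _ (by decide +kernel)).trans hb.h021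
    hT0 := (HHw S _ (by decide +kernel)).trans hb.hT0
    hT1 := (HHw S _ (by decide +kernel)).trans hb.hT1
    hTS := (HHw S _ (by decide +kernel)).trans hb.hTS
    hTR := (HHw S _ (by decide +kernel)).trans hb.hTR
    hTb := (HHw S _ (by decide +kernel)).trans hb.hTb
    hTb' := (HHw S _ (by decide +kernel)).trans hb.hTb'
    hP0 := (HHw S _ (by decide +kernel)).trans hb.hP0
    hP1 := (HHw S _ (by decide +kernel)).trans hb.hP1
    hPS := (HHw S _ (by decide +kernel)).trans hb.hPS
    hPR := (HHw S _ (by decide +kernel)).trans hb.hPR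
    hPb := (HHw S _ (by decide +kernel)).trans hb.hPb
    hPb' := (HHw S _ (by decide +kernel)).trans hb.hPb'
    tot := by
      have e := HHw S {.K, .l0, .l1, .l2, .T0, .T1, .S, .R, .b, .b'} (by decide +kernel)
      rw [e]
      exact hb.tot
    lam1 := by
      have e1 := HHw S {.K, .S, .R, .PS, .PR} (by decide +kernel)
      have e2 := HHw S {.K, .S, .R} (by decide +kernel)
      rw [e1, e2]
      exact hb.lam1
    lam2 := by
      have e1 := HHw S {.K, .T0, .b, .P0, .Pb} (by decide +kernel)
      have e2 := HHw S {.K, .T0, .b} (by decide +kernel)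
      rw [e1, e2]
      exact hb.lam2
    eTM := hb.eTM
    eBM := hb.eBM }

/-- the entropies on the top space -/
theorem baseZ : Hy.Base (pzz S) (VZ S) S.eK S.eL S.eB S.eT S.eP S.eB2 (Real.log M) (Lam S) := by
  have hb := baseY S
  exact {
    hp := hpz S
    hr := validZ S
    hK := (HHt S _ (by decide +kernel)).trans hb.hK
    hL0 := (HHt S _ (by decide +kernel)).trans hb.hL0
    hL1 := (HHt S _ (by decide +kernel)).trans hb.hL1
    hL2 := (HHt S _ (by decide +kernel)).trans hb.hL2
    h00 := (HHt S _ (by decide +kernel)).trans hb.h00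
    h01 := (HHt S _ (by decide +kernel)).trans hb.h01
    h0S := (HHt S _ (by decide +kernel)).trans hb.h0S
    h10 := (HHt S _ (by decide +kernel)).trans hb.h10
    h1R := (HHt S _ (by decide +kernel)).trans hb.h1R
    h21 := (HHt S _ (by decide +kernel)).trans hb.h21
    h2b := (HHt S _ (by decide +kernel)).trans hb.h2b
    h2b' := (HHt S _ (by decide +kernel)).trans hb.h2b'
    h010 := (HHt S _ (by decide +kernel)).trans hb.h010
    h021 := (HHt S _ (by decide +kernel)).trans hb.h021
    hT0 := (HHt S _ (by decide +kernel)).trans hb.hT0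
    hT1 := (HHt S _ (by decide +kernel)).trans hb.hT1
    hTS := (HHt S _ (by decide +kernel)).trans hb.hTS
    hTR := (HHt S _ (by decide +kernel)).trans hb.hTR
    hTb := (HHt S _ (by decide +kernel)).trans hb.hTb
    hTb' := (HHt S _ (by decide +kernel)).trans hb.hTb'
    hP0 := (HHt S _ (by decide +kernel)).trans hb.hP0
    hP1 := (HHt S _ (by decide +kernel)).trans hb.hP1
    hPS := (HHt S _ (by decide +kernel)).trans hb.hPS
    hPR := (HHt S _ (by decide +kernel)).trans hb.hPR
    hPb := (HHt S _ (by decide +kernel)).trans hb.hPb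
    hPb' := (HHt S _ (by decide +kernel)).trans hb.hPb'
    tot := by
      have e := HHt S {.K, .l0, .l1, .l2, .T0, .T1, .S, .R, .b, .b'} (by decide +kernel)
      rw [e]
      exact hb.tot
    lam1 := by
      have e1 := HHt S {.K, .S, .R, .PS, .PR} (by decide +kernel)
      have e2 := HHt S {.K, .S, .R} (by decide +kernel)
      rw [e1, e2]
      exact hb.lam1
    lam2 := by
      have e1 := HHt S {.K, .T0, .b, .P0, .Pb} (by decide +kernel)
      have e2 := HHt S {.K, .T0, .b} (by decide +kernel)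
      rw [e1, e2]
      exact hb.lam2
    eTM := hb.eTM
    eBM := hb.eBM }

/-- gain of scale in the first gluing -/
noncomputable def DD : ℝ := S.A - AQ (Sw S)

/-- gain of scale in the second gluing -/
noncomputable def Dz : ℝ := S.A - AQ (Sz S)

end

end Pool.Agent.Helper8.Hyb
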