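import Pool.Agent.Helper75.KakHJ
import Pool.Agent.Helper8.Hyb.Top
import Pool.Agent.Helper81.Kak.D6

/-!
# Hybrid step: the cost `d6`
-/

set_option autoImplicit false

namespace Pool.Agent.Helper8.Hyb

open Finset Pool.Agent.Helper8.Kak Pool.Agent.Helper6.Kak Pool.Agent.Helper90.Kak

theorem d6' {m : ℕ} : ∃ N : ℝ, 0 ≤ N ∧ ∀ (M : ℕ) (G : Geo m M) (S : PSys G) (kk : ℝ),
    Hy.ParQ (pzz S) (VZ S) S.eK S.eL S.eB S.eT S.eP S.eB2 (Real.log M) (Lam S) kk →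
    HH (pzz S) (VZ S) {.K, .l2, .z, .tz, .Q, .kq, .b, .T1}
      - HH (pzz S) (VZ S) {.K, .l2, .z, .tz, .Q, .kq} ≤
      2 * (HH (pzz S) (VZ S) {.K, .l2, .z, .tz, .Q, .kq, .b', .tw}
        - HH (pzz S) (VZ S) {.K, .l2, .z, .tz, .Q, .kq, .b'}) + N * (kk + 1) := by
  obtain ⟨N, hN, H⟩ := Pool.Agent.Helper81.Kak.cost_d6 Pool.Agent.Helper75.KakHB.factJQ
  refine ⟨N, hN, fun M G S kk h => ?_⟩
  refine H (pzz S) (VZ S) M S.eK S.eL S.eB S.eT S.eP S.eB2 (Lam S) kk h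
    (fun z => S.T (d0 z.1.1)) (fun z => S.T (d1 z.1.1)) (fun z => S.T (dS z.1.1))
    (fun z => S.T (dR z.1.1)) (fun z => S.T (db z.1.1)) (fun z => S.T (db' z.1.1))
    (fun z => vtw S z.1.1) (fun z => vtz S z.1.1)
    (Setoid.ext fun _ _ => Iff.rfl) (Setoid.ext fun _ _ => Iff.rfl)
    (Setoid.ext fun _ _ => Iff.rfl) (Setoid.ext fun _ _ => Iff.rfl)
    (Setoid.ext fun _ _ => Iff.rfl) (Setoid.ext fun _ _ => Iff.rfl)
    (Setoid.ext fun _ _ => Iff.rfl) ?_ ?_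
  · intro z _
    rfl
  · intro z _
    unfold vtz Pool.Agent.Helper90.Kak.vc vtw
    rw [add_sub_cancel_left]

end Pool.Agent.Helper8.Hyb
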