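import Pool.Agent.Helper8.Hyb.Lift

/-!
# Hybrid step: the costs `d7`, `d8`
-/

set_option autoImplicit false

namespace Pool.Agent.Helper8.Hyb

open Finset Pool.Agent.Helper8.Kak Pool.Agent.Helper6.Kak Pool.Agent.Helper90.Kak
  Pool.Agent.Helper81.Kak

variable {m M : ℕ} {G : Geo m M} (S : PSys G)

/-- the gain of scale of the first gluing -/
theorem DD_eq : DD S = Ex (pw S) (fun z => ((kZ (Sw S) z : ℝ) - S.k (d0 z.1)) * Real.log 2) := by
  have h1 : S.A = Ex (pw S) (fun z => gap G.δ (S.k (d0 z.1))) := by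
    have hm : MP (pw S) S.p (fun z => d0 z.1) := (MPw S).comp (MP_d0 S.l (pr S))
    exact (Ex_MP hm (fun ω => gap G.δ (S.k ω))).symm
  have h2 : AQ (Sw S) = Ex (pw S) (fun z => gap G.δ (kZ (Sw S) z)) := rfl
  have h3 : Ex (pw S) (fun z => gap G.δ (S.k (d0 z.1)))
      = Ex (pw S) (fun z => ((kZ (Sw S) z : ℝ) - S.k (d0 z.1)) * Real.log 2
        + gap G.δ (kZ (Sw S) z)) := by
    congr 1
    funext z
    unfold gap
    ring
  have h4 := Ex_add (p := pw S)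
    (fun z => ((kZ (Sw S) z : ℝ) - S.k (d0 z.1)) * Real.log 2)
    (fun z => gap G.δ (kZ (Sw S) z))
  have h5 : DD S = S.A - AQ (Sw S) := rfl
  rw [h5, h1, h2, h3, h4]
  ring

theorem posw {z : ZW S.Ω} (hz : 0 < pw S z) : 0 < pY S z.1 := (MPw S).pos (hpw S).1 hz

theorem angw0 {z : ZW S.Ω} (hz : 0 < pw S z) : S.k (d0 z.1) = JJ G.δ ∨
    ∃ i, (1 / 2) ^ S.k (d0 z.1) < |G.v (S.l (S.σ (d0 z.1))) i - G.v (S.l (d0 z.1)) i| := by
  have hd0 : 0 < S.p (d0 z.1) := (MP_d0 S.l (pr S)).pos (hpY S).1 (posw S hz)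
  rcases S.ang _ hd0 with ha | ⟨i, hi⟩
  · exact Or.inl ha
  · exact Or.inr ⟨i, by rw [abs_sub_comm]; exact hi⟩

theorem angw1 {z : ZW S.Ω} (hz : 0 < pw S z) : S.k (d0 z.1) = JJ G.δ ∨
    ∃ i, (1 / 2) ^ S.k (d0 z.1) < |G.v (S.l (S.σ (d1 z.1))) i - G.v (S.l (d0 z.1)) i| := by
  have k := lk S (posw S hz) (posw S hz)
  have hd1 : 0 < S.p (d1 z.1) := (MP_d1 S.l (pr S)).pos (hpY S).1 (posw S hz)
  have hd0 : 0 < S.p (d0 z.1) := (MP_d0 S.l (pr S)).pos (hpY S).1 (posw S hz)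
  have hk : S.k (d0 z.1) = S.k (d1 z.1) := by
    have := (links S.l (pr S) (posw S hz)).2.2.1.1
    exact S.kK _ _ hd0 hd1 this
  have ha := S.ang _ hd1
  rw [k.l1, ← hk] at ha
  rcases ha with ha | ⟨i, hi⟩
  · exact Or.inl ha
  · exact Or.inr ⟨i, by rw [abs_sub_comm]; exact hi⟩

theorem kkw {z z' : ZW S.Ω} (hz : 0 < pw S z) (hz' : 0 < pw S z') (h : VW S .K z z') :
    S.k (d0 z.1) = S.k (d0 z'.1) := by
  have h1 : S.K (d0 z.1) (d0 z'.1) := h
  exact S.kK _ _ ((MP_d0 S.l (pr S)).pos (hpY S).1 (posw S hz))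
    ((MP_d0 S.l (pr S)).pos (hpY S).1 (posw S hz')) h1

theorem hSw {z : ZW S.Ω} (hz : 0 < pw S z) :
    G.P (S.l (d0 z.1)) (S.T (dS z.1)) = G.P (S.l (d0 z.2)) (S.T (dS z.1)) := by
  have h := lkw S hz
  rw [h.2.2, h.2.1]

theorem log48 : Real.log 48 ≤ 4 := by
  have h : (48 : ℝ) ≤ Real.exp 1 ^ (4 : ℕ) := by
    have h1 := Real.exp_one_gt_d9
    calc (48 : ℝ) ≤ (2.7182818283 : ℝ) ^ 4 := by norm_num
      _ ≤ Real.exp 1 ^ 4 := by gcongr
  rw [← Real.exp_nat_mul] at h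
  have h2 := Real.log_le_log (by norm_num) h
  rw [Real.log_exp] at h2
  norm_num at h2
  linarith

theorem d7' {m : ℕ} : ∃ N : ℝ, 0 ≤ N ∧ ∀ (M : ℕ) (G : Geo m M) (S : PSys G),
    HH (pw S) (VW S) {.K, .l2, .Q, .kq, .T1} - HH (pw S) (VW S) {.K, .l2, .Q, .kq} ≤
      Real.log M - DD S + N * (S.κ + S.ι + ell M) := by
  refine ⟨4, by norm_num, fun M G S => ?_⟩
  have key := Pool.Agent.Helper80.Kak.CE_tube (hpw S) G
    (({.K, .l2, .Q, .kq} : Finset VH).inf (VW S))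
    (fun z => S.l (S.σ (d1 z.1))) (fun z => S.l (d0 z.1)) (fun z => S.l (d0 z.2))
    (fun z => S.T (d1 z.1)) (fun z => S.T (dS z.1)) (fun z => S.k (d0 z.1)) ?_ ?_ ?_ ?_
  · have e1 : HH (pw S) (VW S) {.K, .l2, .Q, .kq, .T1} - HH (pw S) (VW S) {.K, .l2, .Q, .kq}
        = CE (pw S) (VW S .T1) (({.K, .l2, .Q, .kq} : Finset VH).inf (VW S)) :=
      cost_eq _ _ _ (by decide)
    rw [e1]
    have e2 := DD_eq S
    have x1 := XX_ge S
    unfold XX at x1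
    have key' : CE (pw S) (VW S .T1) (({.K, .l2, .Q, .kq} : Finset VH).inf (VW S)) ≤
      Real.log M - DD S + Real.log 48 := by
      rw [e2]
      exact key
    linarith [log48]
  · intro z z' hz hz' g
    rw [inf_rel] at g
    simp only [Finset.mem_insert, Finset.mem_singleton, forall_eq_or_imp, forall_eq] at g
    obtain ⟨g1, g2, g3, g4⟩ := g
    exact ⟨kkw S hz hz' g1, g2, g4, g3⟩
  · intro z hz
    exact (lk S (posw S hz) (posw S hz)).p1
  · intro z hz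
    exact hSw S hz
  · intro z hz
    exact angw1 S hz

theorem d8' {m : ℕ} : ∃ N : ℝ, 0 ≤ N ∧ ∀ (M : ℕ) (G : Geo m M) (S : PSys G),
    HH (pw S) (VW S) {.K, .l1, .Q, .kq, .T0} - HH (pw S) (VW S) {.K, .l1, .Q, .kq} ≤
      Real.log M - DD S + N * (S.κ + S.ι + ell M) := by
  refine ⟨4, by norm_num, fun M G S => ?_⟩
  have key := Pool.Agent.Helper80.Kak.CE_tube (hpw S) G
    (({.K, .l1, .Q, .kq} : Finset VH).inf (VW S))
    (fun z => S.l (S.σ (d0 z.1))) (fun z => S.l (d0 z.1)) (fun z => S.l (d0 z.2))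
    (fun z => S.T (d0 z.1)) (fun z => S.T (dS z.1)) (fun z => S.k (d0 z.1)) ?_ ?_ ?_ ?_
  · have e1 : HH (pw S) (VW S) {.K, .l1, .Q, .kq, .T0} - HH (pw S) (VW S) {.K, .l1, .Q, .kq}
        = CE (pw S) (VW S .T0) (({.K, .l1, .Q, .kq} : Finset VH).inf (VW S)) :=
      cost_eq _ _ _ (by decide)
    rw [e1]
    have e2 := DD_eq S
    have x1 := XX_ge S
    unfold XX at x1
    have key' : CE (pw S) (VW S .T0) (({.K, .l1, .Q, .kq} : Finset VH).inf (VW S)) ≤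
      Real.log M - DD S + Real.log 48 := by
      rw [e2]
      exact key
    linarith [log48]
  · intro z z' hz hz' g
    rw [inf_rel] at g
    simp only [Finset.mem_insert, Finset.mem_singleton, forall_eq_or_imp, forall_eq] at g
    obtain ⟨g1, g2, g3, g4⟩ := g
    exact ⟨kkw S hz hz' g1, g2, g4, g3⟩
  · intro z hz
    exact (lk S (posw S hz) (posw S hz)).p0
  · intro z hz
    exact hSw S hz
  · intro z hz
    exact angw0 S hz

end Pool.Agent.Helper8.Hyb
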