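import Pool.Agent.Helper8.Hyb.CostsA
import Pool.Agent.Helper8.Hyb.CostTube
import Pool.Agent.Helper8.Hyb.CostD6
import Pool.Agent.Helper80.Kak.CostY
import Pool.Agent.Helper6.Kak.CostQ
import Pool.Agent.Helper57.Kak.Costs
import Pool.Agent.Helper47.Kak.C6

/-!
# Hybrid step: the top space exists
-/

set_option autoImplicit false

namespace Pool.Agent.Helper8.Hyb

open Pool.Agent.Helper6.Kak

/-- the top space -/
theorem top (m : ℕ) : Top m :=
  top_of Pool.Agent.Helper80.Kak.c3' Pool.Agent.Helper80.Kak.c4' c5'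
    (Pool.Agent.Helper47.Kak.C6 m) c7' Pool.Agent.Helper80.Kak.c8' d1' d2' d5'
    (q1' m) (q2' m) d7' d8' (u1' m)
    (Pool.Agent.Helper57.Kak.cost_u2 m) (Pool.Agent.Helper57.Kak.cost_u4 m)
    (Pool.Agent.Helper57.Kak.sign_D0 m) (Pool.Agent.Helper57.Kak.sign_Dz0 m) d6'

end Pool.Agent.Helper8.Hyb
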