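import Pool.Agent.Helper8.Hyb.Top

/-!
# Hybrid step: the inductive hypothesis for the two derived systems
-/

set_option autoImplicit false

namespace Pool.Agent.Helper8.Hyb

open Finset Pool.Agent.Helper8.Kak Pool.Agent.Helper6.Kak Pool.Agent.Helper90.Kak

variable {m M : ℕ} {G : Geo m M} (S : PSys G)

theorem Sw_a : (Sw S).a = HH (pY S) (VY S) {.K, .w, .tw, .l0} - HH (pY S) (VY S) {.K, .w, .tw} :=
  sysOf_a (hpY S) (VY S) _ _ VH.l0 rfl (by decide +kernel)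

theorem Sw_h : (Sw S).h = HH (pY S) (VY S) {.K, .w, .tw, .S, .PS}
    - HH (pY S) (VY S) {.K, .w, .tw, .S} := by
  have h1 : VY S .PS = Setoid.ker (fun y => G.P (S.l (d0 y)) (S.T (dS y))) :=
    Setoid.ext fun y y' => Iff.rfl
  exact sysOf_h (hpY S) (VY S) _ _ VH.S VH.PS rfl h1 (by decide +kernel) (by decide +kernel)

theorem Sw_κ : (Sw S).κ = Real.log M - (HH (pY S) (VY S) {.K, .w, .tw, .l0, .S}
    - HH (pY S) (VY S) {.K, .w, .tw, .l0}) :=
  sysOf_κ (hpY S) (VY S) _ _ VH.l0 VH.S rfl rfl (by decide +kernel) (by decide +kernel)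

theorem Sw_HQ : HQ (Sw S) = HH (pw S) (VW S) {.K, .w, .tw, .kq, .Q}
    - HH (pw S) (VW S) {.K, .w, .tw, .kq} := by
  have e1 : ∀ z z' : ZW S.Ω, (Setoid.comap Prod.fst (Sw S).K) z z' ↔
      VW S .K z z' ∧ VW S .w z z' ∧ VW S .tw z z' := by
    intro z z'
    have h1 := inf_rel (VY S) ({.K, .w, .tw} : Finset VH) z.1 z'.1
    have h2 : (Setoid.comap Prod.fst (Sw S).K) z z' ↔
      (({.K, .w, .tw} : Finset VH).inf (VY S)) z.1 z'.1 := Iff.rfl
    rw [h2, h1]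
    simp only [Finset.mem_insert, Finset.mem_singleton, forall_eq_or_imp, forall_eq]
    exact Iff.rfl
  unfold HQ HH
  congr 1
  · refine Ent_congr' (hpw S) fun z z' _ _ => ?_
    rw [inf_rel]
    simp only [Finset.mem_insert, Finset.mem_singleton, forall_eq_or_imp, forall_eq]
    constructor
    · rintro ⟨⟨h1, h2⟩, h3⟩
      obtain ⟨g1, g2, g3⟩ := (e1 z z').1 h1
      exact ⟨g1, g2, g3, h2, h3⟩
    · rintro ⟨g1, g2, g3, h2, h3⟩
      exact ⟨⟨(e1 z z').2 ⟨g1, g2, g3⟩, h2⟩, h3⟩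
  · refine Ent_congr' (hpw S) fun z z' _ _ => ?_
    rw [inf_rel]
    simp only [Finset.mem_insert, Finset.mem_singleton, forall_eq_or_imp, forall_eq]
    constructor
    · rintro ⟨h1, h2⟩
      obtain ⟨g1, g2, g3⟩ := (e1 z z').1 h1
      exact ⟨g1, g2, g3, h2⟩
    · rintro ⟨g1, g2, g3, h2⟩
      exact ⟨(e1 z z').2 ⟨g1, g2, g3⟩, h2⟩

theorem Sz_a : (Sz S).a = HH (pw S) (VW S) {.K, .z, .tz, .kq, .Q, .l2}
    - HH (pw S) (VW S) {.K, .z, .tz, .kq, .Q} :=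
  sysOf_a (hpw S) (VW S) _ _ VH.l2 rfl (by decide +kernel)

theorem Sz_h : (Sz S).h = HH (pw S) (VW S) {.K, .z, .tz, .kq, .Q, .b', .Pb'}
    - HH (pw S) (VW S) {.K, .z, .tz, .kq, .Q, .b'} := by
  have h1 : VW S .Pb' = Setoid.ker (fun y => G.P (S.l (S.σ (d1 y.1))) (S.T (db' y.1))) :=
    Setoid.ext fun y y' => Iff.rfl
  exact sysOf_h (hpw S) (VW S) _ _ VH.b' VH.Pb' rfl h1 (by decide +kernel) (by decide +kernel)

theorem Sz_κ : (Sz S).κ = Real.log M - (HH (pw S) (VW S) {.K, .z, .tz, .kq, .Q, .l2, .b'}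
    - HH (pw S) (VW S) {.K, .z, .tz, .kq, .Q, .l2}) :=
  sysOf_κ (hpw S) (VW S) _ _ VH.l2 VH.b' rfl rfl (by decide +kernel) (by decide +kernel)

theorem Sz_HQ : HQ (Sz S) = HH (pzz S) (VZ S) {.K, .z, .tz, .kq, .Q, .kz, .Qz}
    - HH (pzz S) (VZ S) {.K, .z, .tz, .kq, .Q, .kz} := by
  have e1 : ∀ z z' : Zz S.Ω, (Setoid.comap Prod.fst (Sz S).K) z z' ↔
      VZ S .K z z' ∧ VZ S .z z z' ∧ VZ S .tz z z' ∧ VZ S .kq z z' ∧ VZ S .Q z z' := by
    intro z z'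
    have h1 := inf_rel (VW S) ({.K, .z, .tz, .kq, .Q} : Finset VH) z.1 z'.1
    have h2 : (Setoid.comap Prod.fst (Sz S).K) z z' ↔
      (({.K, .z, .tz, .kq, .Q} : Finset VH).inf (VW S)) z.1 z'.1 := Iff.rfl
    rw [h2, h1]
    simp only [Finset.mem_insert, Finset.mem_singleton, forall_eq_or_imp, forall_eq]
    exact Iff.rfl
  unfold HQ HH
  congr 1
  · refine Ent_congr' (hpz S) fun z z' _ _ => ?_
    rw [inf_rel]
    simp only [Finset.mem_insert, Finset.mem_singleton, forall_eq_or_imp, forall_eq]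
    constructor
    · rintro ⟨⟨h1, h2⟩, h3⟩
      obtain ⟨g1, g2, g3, g4, g5⟩ := (e1 z z').1 h1
      exact ⟨g1, g2, g3, g4, g5, h2, h3⟩
    · rintro ⟨g1, g2, g3, g4, g5, h2, h3⟩
      exact ⟨⟨(e1 z z').2 ⟨g1, g2, g3, g4, g5⟩, h2⟩, h3⟩
  · refine Ent_congr' (hpz S) fun z z' _ _ => ?_
    rw [inf_rel]
    simp only [Finset.mem_insert, Finset.mem_singleton, forall_eq_or_imp, forall_eq]
    constructor
    · rintro ⟨h1, h2⟩
      obtain ⟨g1, g2, g3, g4, g5⟩ := (e1 z z').1 h1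
      exact ⟨g1, g2, g3, g4, g5, h2⟩
    · rintro ⟨g1, g2, g3, g4, g5, h2⟩
      exact ⟨(e1 z z').2 ⟨g1, g2, g3, g4, g5⟩, h2⟩

/-- the inductive hypothesis for the first derived system -/
theorem ihw {β c C kk : ℝ} (hC : 0 ≤ C) (h : ∀ (M : ℕ) (G : Geo m M) (S : Sys G),
    S.a + (β - 1) * HQ S + c * AQ S ≤ β * S.h + C * (S.κ + ell M)) (hk : ell M ≤ kk) :
    Hy.IHw (pzz S) (VZ S) (Real.log M) kk S.A (DD S) β c C := by
  have i := h M G (Sw S)
  rw [Sw_a, Sw_h, Sw_κ, Sw_HQ] at i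
  have hA : AQ (Sw S) = S.A - DD S := by unfold DD; ring
  rw [hA] at i
  unfold Hy.IHw
  have a1 := HHt S {.K, .w, .tw, .l0} (by decide +kernel)
  have a2 := HHt S {.K, .w, .tw} (by decide +kernel)
  have a3 := HHt S {.K, .w, .tw, .S, .PS} (by decide +kernel)
  have a4 := HHt S {.K, .w, .tw, .S} (by decide +kernel)
  have a5 := HHt S {.K, .w, .tw, .l0, .S} (by decide +kernel)
  have a6 := HHz S {.K, .w, .tw, .kq, .Q} (by decide +kernel)
  have a7 := HHz S {.K, .w, .tw, .kq} (by decide +kernel)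
  rw [a1, a2, a3, a4, a5, a6, a7]
  have h1 := mul_le_mul_of_nonneg_left hk hC
  linarith

/-- the inductive hypothesis for the second derived system -/
theorem ihz {β c C kk : ℝ} (hC : 0 ≤ C) (h : ∀ (M : ℕ) (G : Geo m M) (S : Sys G),
    S.a + (β - 1) * HQ S + c * AQ S ≤ β * S.h + C * (S.κ + ell M)) (hk : ell M ≤ kk) :
    Hy.IHz (pzz S) (VZ S) (Real.log M) kk S.A (Dz S) β c C := by
  have i := h M G (Sz S)
  rw [Sz_a, Sz_h, Sz_κ, Sz_HQ] at i
  have hA : AQ (Sz S) = S.A - Dz S := by unfold Dz; ring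
  rw [hA] at i
  unfold Hy.IHz
  have a1 := HHz S {.K, .z, .tz, .kq, .Q, .l2} (by decide +kernel)
  have a2 := HHz S {.K, .z, .tz, .kq, .Q} (by decide +kernel)
  have a3 := HHz S {.K, .z, .tz, .kq, .Q, .b', .Pb'} (by decide +kernel)
  have a4 := HHz S {.K, .z, .tz, .kq, .Q, .b'} (by decide +kernel)
  have a5 := HHz S {.K, .z, .tz, .kq, .Q, .l2, .b'} (by decide +kernel)
  rw [a1, a2, a3, a4, a5]
  have h1 := mul_le_mul_of_nonneg_left hk hC
  linarith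

end Pool.Agent.Helper8.Hyb
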