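import Pool.Agent.Helper6.Kak.StepT
import Pool.Agent.Helper75.KakU3
import Pool.Agent.Helper8.Hyb.IH
import Pool.Agent.Helper81.Kak.RIH
import Pool.Agent.Helper90.Kak.VEq

/-!
# Hybrid step: transport of the costs to the top space
-/

set_option autoImplicit false

namespace Pool.Agent.Helper8.Hyb

open Finset Pool.Agent.Helper8.Kak Pool.Agent.Helper6.Kak Pool.Agent.Helper90.Kak

variable {m M : ℕ} {G : Geo m M} (S : PSys G)

theorem HHtY (A : Finset VH) (h : (.kz ∉ A ∧ .Qz ∉ A ∧ .Pz ∉ A) ∧ .kq ∉ A ∧ .Q ∉ A) :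
    HH (pzz S) (VZ S) A = HH (pY S) (VHY S) A := by
  rw [VHY_eq]
  exact HHt S A h

theorem HHwY (A : Finset VH) (h : .kq ∉ A ∧ .Q ∉ A) :
    HH (pw S) (VW S) A = HH (pY S) (VHY S) A := by
  rw [VHY_eq]
  exact HHw S A h

/-- the parameter costs on the first glued space -/
theorem parW {kk : ℝ}
    (h : Hy.Par (pY S) (VHY S) S.eK S.eL S.eB S.eT S.eP S.eB2 (Real.log M) (Lam S) kk) :
    Hy.Par (pw S) (VW S) S.eK S.eL S.eB S.eT S.eP S.eB2 (Real.log M) (Lam S) kk := by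
  refine { toBase := baseW S, kk0 := h.kk0, hκ := h.hκ, hι := h.hι, c1 := ?_, c2 := ?_, c9 := ?_,
           cz := ?_, cU := ?_ }
  · have e1 := HHwY S {.tw, .S, .T0, .T1, .R} (by decide +kernel)
    have e2 := HHwY S {.tw, .S, .T0, .T1} (by decide +kernel)
    rw [e1, e2]
    exact h.c1
  · have e1 := HHwY S {.K, .tw} (by decide +kernel)
    have e2 := HHwY S {.K} (by decide +kernel)
    rw [e1, e2]
    exact h.c2
  · have e1 := HHwY S {.tw, .S, .T0, .R, .T1} (by decide +kernel)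
    have e2 := HHwY S {.tw, .S, .T0, .R} (by decide +kernel)
    rw [e1, e2]
    exact h.c9
  · have e1 := HHwY S {.K, .tz} (by decide +kernel)
    have e2 := HHwY S {.K} (by decide +kernel)
    rw [e1, e2]
    exact h.cz
  · have e1 := HHwY S {.b', .b, .T1, .tz, .tw} (by decide +kernel)
    have e2 := HHwY S {.b', .b, .T1, .tz} (by decide +kernel)
    rw [e1, e2]
    exact h.cU

/-- the parameter costs on the top space -/
theorem parZ {kk : ℝ}
    (h : Hy.Par (pY S) (VHY S) S.eK S.eL S.eB S.eT S.eP S.eB2 (Real.log M) (Lam S) kk) :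
    Hy.Par (pzz S) (VZ S) S.eK S.eL S.eB S.eT S.eP S.eB2 (Real.log M) (Lam S) kk := by
  refine { toBase := baseZ S, kk0 := h.kk0, hκ := h.hκ, hι := h.hι, c1 := ?_, c2 := ?_, c9 := ?_,
           cz := ?_, cU := ?_ }
  · have e1 := HHtY S {.tw, .S, .T0, .T1, .R} (by decide +kernel)
    have e2 := HHtY S {.tw, .S, .T0, .T1} (by decide +kernel)
    rw [e1, e2]
    exact h.c1
  · have e1 := HHtY S {.K, .tw} (by decide +kernel)
    have e2 := HHtY S {.K} (by decide +kernel)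
    rw [e1, e2]
    exact h.c2
  · have e1 := HHtY S {.tw, .S, .T0, .R, .T1} (by decide +kernel)
    have e2 := HHtY S {.tw, .S, .T0, .R} (by decide +kernel)
    rw [e1, e2]
    exact h.c9
  · have e1 := HHtY S {.K, .tz} (by decide +kernel)
    have e2 := HHtY S {.K} (by decide +kernel)
    rw [e1, e2]
    exact h.cz
  · have e1 := HHtY S {.b', .b, .T1, .tz, .tw} (by decide +kernel)
    have e2 := HHtY S {.b', .b, .T1, .tz} (by decide +kernel)
    rw [e1, e2]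
    exact h.cU

/-- the errors -/
noncomputable def XX : ℝ := S.κ + S.ι + ell M

theorem XX_ge : 1 ≤ XX S := by
  have h1 := S.κ_nonneg
  have h2 := Pool.Agent.Helper75.KakHB.ι_nonneg S
  have h3 := Pool.Agent.Helper81.Kak.ell_ge M
  unfold XX
  linarith

theorem XX_κ : S.κ + 1 ≤ XX S := by
  have h2 := Pool.Agent.Helper75.KakHB.ι_nonneg S
  have h3 := Pool.Agent.Helper81.Kak.ell_ge M
  unfold XX
  linarith

theorem XX_κl : S.κ + ell M ≤ XX S := by
  have h2 := Pool.Agent.Helper75.KakHB.ι_nonneg S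
  unfold XX
  linarith

theorem XX_ι : S.ι ≤ XX S := by
  have h1 := S.κ_nonneg
  have h3 := Pool.Agent.Helper81.Kak.ell_ge M
  unfold XX
  linarith

theorem XX_ell : ell M ≤ XX S := by
  have h1 := S.κ_nonneg
  have h2 := Pool.Agent.Helper75.KakHB.ι_nonneg S
  unfold XX
  linarith

/-- the costs of the scales and of the first tube: `Hy.ParQ` on the top space -/
theorem parQ_of {m : ℕ}
    (q1 : ∃ N : ℝ, 0 ≤ N ∧ ∀ (M : ℕ) (G : Geo m M) (S : PSys G),
      HH (pw S) (VW S) {.K, .kq}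
        - HH (pw S) (VW S) {.K} ≤
        N * (S.κ + S.ι + ell M))
    (q2 : ∃ N : ℝ, 0 ≤ N ∧ ∀ (M : ℕ) (G : Geo m M) (S : PSys G),
      HH (pw S) (VW S) {.l0, .kq, .Q}
        - HH (pw S) (VW S) {.l0, .kq} ≤
        N * (S.κ + S.ι + ell M))
    (u1 : ∃ N : ℝ, 0 ≤ N ∧ ∀ (M : ℕ) (G : Geo m M) (S : PSys G),
      HH (pzz S) (VZ S) {.K, .kz}
        - HH (pzz S) (VZ S) {.K} ≤
        N * (S.κ + S.ι + ell M)) :
    ∃ N : ℝ, 0 ≤ N ∧ ∀ (M : ℕ) (G : Geo m M) (S : PSys G) (kk : ℝ),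
      N * (S.κ + S.ι + ell M) ≤ kk →
      Hy.ParQ (pzz S) (VZ S) S.eK S.eL S.eB S.eT S.eP S.eB2 (Real.log M) (Lam S) kk := by
  obtain ⟨N1, n1, q1⟩ := q1
  obtain ⟨N2, n2, q2⟩ := q2
  obtain ⟨N3, n3, u1⟩ := u1
  refine ⟨34 + N1 + N2 + N3, by positivity, fun M G S kk hk => ?_⟩
  have x0 : 0 ≤ S.κ + S.ι + ell M := le_trans zero_le_one (XX_ge S)
  have x1 : S.κ + 1 ≤ S.κ + S.ι + ell M := XX_κ S
  have x2 : S.ι ≤ S.κ + S.ι + ell M := XX_ι S
  have g1 : N1 * (S.κ + S.ι + ell M) ≤ kk :=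
    (mul_le_mul_of_nonneg_right (by linarith) x0).trans hk
  have g2 : N2 * (S.κ + S.ι + ell M) ≤ kk :=
    (mul_le_mul_of_nonneg_right (by linarith) x0).trans hk
  have g3 : N3 * (S.κ + S.ι + ell M) ≤ kk :=
    (mul_le_mul_of_nonneg_right (by linarith) x0).trans hk
  have g4 : 34 * (S.κ + S.ι + ell M) ≤ kk :=
    (mul_le_mul_of_nonneg_right (by linarith) x0).trans hk
  have hP := parZ S (par S (kk := kk) (by linarith) (by linarith))
  refine { toPar := hP, q1 := ?_, q2 := ?_, u1 := ?_ }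
  · have e1 := HHz S {.K, .kq} (by decide +kernel)
    have e2 := HHz S {.K} (by decide +kernel)
    rw [e1, e2]
    exact (q1 M G S).trans g1
  · have e1 := HHz S {.l0, .kq, .Q} (by decide +kernel)
    have e2 := HHz S {.l0, .kq} (by decide +kernel)
    rw [e1, e2]
    exact (q2 M G S).trans g2
  · exact (u1 M G S).trans g3

/-- the assembly of the costs -/
theorem top_of {m : ℕ}
    (c3 : ∃ N : ℝ, 0 ≤ N ∧ ∀ (M : ℕ) (G : Geo m M) (S : PSys G),
      HH (pY S) (VHY S) {.K, .l0, .l1, .T0}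
        - HH (pY S) (VHY S) {.K, .l0, .l1} ≤
        Real.log M - S.A + N * (S.κ + S.ι + ell M))
    (c4 : ∃ N : ℝ, 0 ≤ N ∧ ∀ (M : ℕ) (G : Geo m M) (S : PSys G),
      HH (pY S) (VHY S) {.K, .l0, .l1, .w, .tw, .T1}
        - HH (pY S) (VHY S) {.K, .l0, .l1, .w, .tw} ≤
        Real.log M - S.A + N * (S.κ + S.ι + ell M))
    (c5 : ∃ N : ℝ, 0 ≤ N ∧ ∀ (M : ℕ) (G : Geo m M) (S : PSys G),
      HH (pY S) (VHY S) {.PS, .PR, .S, .R, .tw, .w}
        - HH (pY S) (VHY S) {.PS, .PR, .S, .R, .tw} ≤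
        N * (S.κ + S.ι + ell M))
    (c6 : ∃ N : ℝ, 0 ≤ N ∧ ∀ (M : ℕ) (G : Geo m M) (S : PSys G),
      HH (pY S) (VHY S) {.PS, .w, .S, .R, .tw, .PR}
        - HH (pY S) (VHY S) {.PS, .w, .S, .R, .tw} ≤
        N * (S.κ + S.ι + ell M))
    (c7 : ∃ N : ℝ, 0 ≤ N ∧ ∀ (M : ℕ) (G : Geo m M) (S : PSys G),
      HH (pY S) (VHY S) {.K, .l0, .R, .PR, .l1}
        - HH (pY S) (VHY S) {.K, .l0, .R, .PR} ≤
        N * (S.κ + S.ι + ell M))
    (c8 : ∃ N : ℝ, 0 ≤ N ∧ ∀ (M : ℕ) (G : Geo m M) (S : PSys G),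
      HH (pY S) (VHY S) {.K, .l0, .l1, .tw, .w}
        - HH (pY S) (VHY S) {.K, .l0, .l1, .tw} ≤
        S.A + N * (S.κ + S.ι + ell M))
    (d1 : ∃ N : ℝ, 0 ≤ N ∧ ∀ (M : ℕ) (G : Geo m M) (S : PSys G),
      HH (pY S) (VHY S) {.z, .Pb, .b, .tz, .l1}
        - HH (pY S) (VHY S) {.z, .Pb, .b, .tz} ≤
        N * (S.κ + S.ι + ell M))
    (d2 : ∃ N : ℝ, 0 ≤ N ∧ ∀ (M : ℕ) (G : Geo m M) (S : PSys G),
      HH (pY S) (VHY S) {.K, .l1, .T1, .P1, .l0}
        - HH (pY S) (VHY S) {.K, .l1, .T1, .P1} ≤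
        N * (S.κ + S.ι + ell M))
    (d5 : ∃ N : ℝ, 0 ≤ N ∧ ∀ (M : ℕ) (G : Geo m M) (S : PSys G),
      HH (pY S) (VHY S) {.Pb', .w, .b', .tw, .tz, .z}
        - HH (pY S) (VHY S) {.Pb', .w, .b', .tw, .tz} ≤
        N * (S.κ + S.ι + ell M))
    (q1 : ∃ N : ℝ, 0 ≤ N ∧ ∀ (M : ℕ) (G : Geo m M) (S : PSys G),
      HH (pw S) (VW S) {.K, .kq}
        - HH (pw S) (VW S) {.K} ≤
        N * (S.κ + S.ι + ell M))
    (q2 : ∃ N : ℝ, 0 ≤ N ∧ ∀ (M : ℕ) (G : Geo m M) (S : PSys G),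
      HH (pw S) (VW S) {.l0, .kq, .Q}
        - HH (pw S) (VW S) {.l0, .kq} ≤
        N * (S.κ + S.ι + ell M))
    (d7 : ∃ N : ℝ, 0 ≤ N ∧ ∀ (M : ℕ) (G : Geo m M) (S : PSys G),
      HH (pw S) (VW S) {.K, .l2, .Q, .kq, .T1}
        - HH (pw S) (VW S) {.K, .l2, .Q, .kq} ≤
        Real.log M - DD S + N * (S.κ + S.ι + ell M))
    (d8 : ∃ N : ℝ, 0 ≤ N ∧ ∀ (M : ℕ) (G : Geo m M) (S : PSys G),
      HH (pw S) (VW S) {.K, .l1, .Q, .kq, .T0}
        - HH (pw S) (VW S) {.K, .l1, .Q, .kq} ≤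
        Real.log M - DD S + N * (S.κ + S.ι + ell M))
    (u1 : ∃ N : ℝ, 0 ≤ N ∧ ∀ (M : ℕ) (G : Geo m M) (S : PSys G),
      HH (pzz S) (VZ S) {.K, .kz}
        - HH (pzz S) (VZ S) {.K} ≤
        N * (S.κ + S.ι + ell M))
    (u2 : ∃ N : ℝ, 0 ≤ N ∧ ∀ (M : ℕ) (G : Geo m M) (S : PSys G),
      HH (pzz S) (VZ S) {.b, .kz, .Qz, .Pz}
        - HH (pzz S) (VZ S) {.b, .kz, .Qz} ≤
        N * (S.κ + S.ι + ell M))
    (u4 : ∃ N : ℝ, 0 ≤ N ∧ ∀ (M : ℕ) (G : Geo m M) (S : PSys G),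
      HH (pzz S) (VZ S) {.b, .Pb, .kz, .Pz}
        - HH (pzz S) (VZ S) {.b, .Pb, .kz} ≤
        N * (S.κ + S.ι + ell M))
    (D0 : ∃ N : ℝ, 0 ≤ N ∧ ∀ (M : ℕ) (G : Geo m M) (S : PSys G),
      - (N * (S.κ + S.ι + ell M)) ≤ DD S)
    (Dz0 : ∃ N : ℝ, 0 ≤ N ∧ ∀ (M : ℕ) (G : Geo m M) (S : PSys G),
      - (N * (S.κ + S.ι + ell M)) ≤ Dz S)
    (d6 : ∃ N : ℝ, 0 ≤ N ∧ ∀ (M : ℕ) (G : Geo m M) (S : PSys G) (kk : ℝ),
      Hy.ParQ (pzz S) (VZ S) S.eK S.eL S.eB S.eT S.eP S.eB2 (Real.log M) (Lam S) kk →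
      HH (pzz S) (VZ S) {.K, .l2, .z, .tz, .Q, .kq, .b, .T1}
        - HH (pzz S) (VZ S) {.K, .l2, .z, .tz, .Q, .kq} ≤
        2 * (HH (pzz S) (VZ S) {.K, .l2, .z, .tz, .Q, .kq, .b', .tw}
          - HH (pzz S) (VZ S) {.K, .l2, .z, .tz, .Q, .kq, .b'}) + N * (kk + 1)) :
    Top m := by
  obtain ⟨Nq, hNq, hQ⟩ := parQ_of q1 q2 u1
  obtain ⟨N6, n6, d6⟩ := d6
  obtain ⟨Nu, nu, u3⟩ := Pool.Agent.Helper75.KakU3.cost_u3 m
  obtain ⟨M0, m0, c3⟩ := c3
  obtain ⟨M1, m1, c4⟩ := c4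
  obtain ⟨M2, m2, c5⟩ := c5
  obtain ⟨M3, m3, c6⟩ := c6
  obtain ⟨M4, m4, c7⟩ := c7
  obtain ⟨M5, m5, c8⟩ := c8
  obtain ⟨M6, m6, d1⟩ := d1
  obtain ⟨M7, m7, d2⟩ := d2
  obtain ⟨M8, m8, d5⟩ := d5
  obtain ⟨M9, m9, d7⟩ := d7
  obtain ⟨M10, m10, d8⟩ := d8
  obtain ⟨M11, m11, u2⟩ := u2
  obtain ⟨M12, m12, u4⟩ := u4
  obtain ⟨M13, m13, D0⟩ := D0
  obtain ⟨M14, m14, Dz0⟩ := Dz0
  set N := 1 + Nq + N6 * (Nq + 1) + Nu * (Nq + 1) + M0 + M1 + M2 + M3 + M4 + M5 + M6 + M7 + M8 + M9 + M10 + M11 + M12 + M13 + M14 with hN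
  have a6 : 0 ≤ N6 * (Nq + 1) := by positivity
  have au : 0 ≤ Nu * (Nq + 1) := by positivity
  have hN0 : 0 ≤ N := by positivity
  refine ⟨N, hN0, fun M G S => ⟨Zz S.Ω, inferInstance, pzz S, VZ S, Lam S, DD S, Dz S, ?_, ?_⟩⟩
  · have x1 : 1 ≤ S.κ + S.ι + ell M := XX_ge S
    have x0 : 0 ≤ S.κ + S.ι + ell M := le_trans zero_le_one x1
    set X := S.κ + S.ι + ell M with hX
    have b0 : M0 * X ≤ N * X := mul_le_mul_of_nonneg_right (by rw [hN]; linarith) x0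
    have b1 : M1 * X ≤ N * X := mul_le_mul_of_nonneg_right (by rw [hN]; linarith) x0
    have b2 : M2 * X ≤ N * X := mul_le_mul_of_nonneg_right (by rw [hN]; linarith) x0
    have b3 : M3 * X ≤ N * X := mul_le_mul_of_nonneg_right (by rw [hN]; linarith) x0
    have b4 : M4 * X ≤ N * X := mul_le_mul_of_nonneg_right (by rw [hN]; linarith) x0
    have b5 : M5 * X ≤ N * X := mul_le_mul_of_nonneg_right (by rw [hN]; linarith) x0
    have b6 : M6 * X ≤ N * X := mul_le_mul_of_nonneg_right (by rw [hN]; linarith) x0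
    have b7 : M7 * X ≤ N * X := mul_le_mul_of_nonneg_right (by rw [hN]; linarith) x0
    have b8 : M8 * X ≤ N * X := mul_le_mul_of_nonneg_right (by rw [hN]; linarith) x0
    have b9 : M9 * X ≤ N * X := mul_le_mul_of_nonneg_right (by rw [hN]; linarith) x0
    have b10 : M10 * X ≤ N * X := mul_le_mul_of_nonneg_right (by rw [hN]; linarith) x0
    have b11 : M11 * X ≤ N * X := mul_le_mul_of_nonneg_right (by rw [hN]; linarith) x0
    have b12 : M12 * X ≤ N * X := mul_le_mul_of_nonneg_right (by rw [hN]; linarith) x0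
    have b13 : M13 * X ≤ N * X := mul_le_mul_of_nonneg_right (by rw [hN]; linarith) x0
    have b14 : M14 * X ≤ N * X := mul_le_mul_of_nonneg_right (by rw [hN]; linarith) x0
    have bq : Nq * X ≤ N * X := mul_le_mul_of_nonneg_right (by rw [hN]; linarith) x0
    have b6' : N6 * (Nq + 1) * X ≤ N * X := mul_le_mul_of_nonneg_right (by rw [hN]; linarith) x0
    have bu' : Nu * (Nq + 1) * X ≤ N * X := mul_le_mul_of_nonneg_right (by rw [hN]; linarith) x0
    have b6 : N6 * (Nq * X + 1) ≤ N * X := by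
      refine le_trans ?_ b6'
      rw [mul_assoc]
      exact mul_le_mul_of_nonneg_left (by linarith) n6
    have bu : Nu * (Nq * X + 1) ≤ N * X := by
      refine le_trans ?_ bu'
      rw [mul_assoc]
      exact mul_le_mul_of_nonneg_left (by linarith) nu
    have hPQ := hQ M G S (Nq * X) le_rfl
    exact {
      toParQ := hQ M G S (N * X) bq
      c3 := by
        have e1 := HHtY S {.K, .l0, .l1, .T0} (by decide +kernel)
        have e2 := HHtY S {.K, .l0, .l1} (by decide +kernel)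
        rw [e1, e2]
        linarith [c3 M G S]
      c4 := by
        have e1 := HHtY S {.K, .l0, .l1, .w, .tw, .T1} (by decide +kernel)
        have e2 := HHtY S {.K, .l0, .l1, .w, .tw} (by decide +kernel)
        rw [e1, e2]
        linarith [c4 M G S]
      c5 := by
        have e1 := HHtY S {.PS, .PR, .S, .R, .tw, .w} (by decide +kernel)
        have e2 := HHtY S {.PS, .PR, .S, .R, .tw} (by decide +kernel)
        rw [e1, e2]
        linarith [c5 M G S]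
      c6 := by
        have e1 := HHtY S {.PS, .w, .S, .R, .tw, .PR} (by decide +kernel)
        have e2 := HHtY S {.PS, .w, .S, .R, .tw} (by decide +kernel)
        rw [e1, e2]
        linarith [c6 M G S]
      c7 := by
        have e1 := HHtY S {.K, .l0, .R, .PR, .l1} (by decide +kernel)
        have e2 := HHtY S {.K, .l0, .R, .PR} (by decide +kernel)
        rw [e1, e2]
        linarith [c7 M G S]
      c8 := by
        have e1 := HHtY S {.K, .l0, .l1, .tw, .w} (by decide +kernel)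
        have e2 := HHtY S {.K, .l0, .l1, .tw} (by decide +kernel)
        rw [e1, e2]
        linarith [c8 M G S]
      d1 := by
        have e1 := HHtY S {.z, .Pb, .b, .tz, .l1} (by decide +kernel)
        have e2 := HHtY S {.z, .Pb, .b, .tz} (by decide +kernel)
        rw [e1, e2]
        linarith [d1 M G S]
      d2 := by
        have e1 := HHtY S {.K, .l1, .T1, .P1, .l0} (by decide +kernel)
        have e2 := HHtY S {.K, .l1, .T1, .P1} (by decide +kernel)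
        rw [e1, e2]
        linarith [d2 M G S]
      d5 := by
        have e1 := HHtY S {.Pb', .w, .b', .tw, .tz, .z} (by decide +kernel)
        have e2 := HHtY S {.Pb', .w, .b', .tw, .tz} (by decide +kernel)
        rw [e1, e2]
        linarith [d5 M G S]
      d7 := by
        have e1 := HHz S {.K, .l2, .Q, .kq, .T1} (by decide +kernel)
        have e2 := HHz S {.K, .l2, .Q, .kq} (by decide +kernel)
        rw [e1, e2]
        linarith [d7 M G S]
      d8 := by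
        have e1 := HHz S {.K, .l1, .Q, .kq, .T0} (by decide +kernel)
        have e2 := HHz S {.K, .l1, .Q, .kq} (by decide +kernel)
        rw [e1, e2]
        linarith [d8 M G S]
      d6 := by linarith [d6 M G S (Nq * X) hPQ]
      u2 := by linarith [u2 M G S]
      u4 := by linarith [u4 M G S]
      u3 := by linarith [u3 M G S (Lam S) (Nq * X) hPQ]
      D0 := by linarith [D0 M G S]
      Dz0 := by linarith [Dz0 M G S] }
  · intro β c C _ hC hR
    -- `ell M ≤ N X` needs `1 ≤ N`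
    have x1 : ell M ≤ N * (S.κ + S.ι + ell M) := by
      have x2 : ell M ≤ S.κ + S.ι + ell M := XX_ell S
      have x3 : 0 ≤ S.κ + S.ι + ell M := le_trans zero_le_one (XX_ge S)
      have x4 : 1 * (S.κ + S.ι + ell M) ≤ N * (S.κ + S.ι + ell M) :=
        mul_le_mul_of_nonneg_right (by rw [hN]; linarith) x3
      linarith
    exact ⟨ihw S hC hR x1, ihz S hC hR x1⟩

end Pool.Agent.Helper8.Hyb
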