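import Pool.Agent.Helper68.Kak.CostPlane
import Pool.Agent.Helper68.Kak.Plane
import Pool.Agent.Helper8.Hyb.Lift

/-!
# Hybrid step: the costs `c5`, `c7`, `d1`, `d2`, `d5` in the form of the assembly
-/

set_option autoImplicit false

namespace Pool.Agent.Helper8.Hyb

open Finset Pool.Agent.Helper8.Kak Pool.Agent.Helper6.Kak Pool.Agent.Helper90.Kak

variable {m : ℕ}

theorem conv1 {M : ℕ} {G : Geo m M} (S : PSys G) {x N : ℝ} (hN : 0 ≤ N) (h : x ≤ N * (S.κ + 1)) :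
    x ≤ N * (S.κ + S.ι + ell M) :=
  h.trans (mul_le_mul_of_nonneg_left (XX_κ S) hN)

theorem conv2 {M : ℕ} {G : Geo m M} (S : PSys G) {x N : ℝ} (hN : 0 ≤ N)
    (h : x ≤ N * (S.κ + ell M)) : x ≤ N * (S.κ + S.ι + ell M) :=
  h.trans (mul_le_mul_of_nonneg_left (XX_κl S) hN)

theorem c5' : ∃ N : ℝ, 0 ≤ N ∧ ∀ (M : ℕ) (G : Geo m M) (S : PSys G),
    HH (pY S) (VHY S) {.PS, .PR, .S, .R, .tw, .w} - HH (pY S) (VHY S) {.PS, .PR, .S, .R, .tw} ≤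
      N * (S.κ + S.ι + ell M) :=
  ⟨m * 50, by positivity, fun _ _ S => conv1 S (by positivity)
    ((cost5 S).trans (le_of_eq (by ring)))⟩

theorem d1' : ∃ N : ℝ, 0 ≤ N ∧ ∀ (M : ℕ) (G : Geo m M) (S : PSys G),
    HH (pY S) (VHY S) {.z, .Pb, .b, .tz, .l1} - HH (pY S) (VHY S) {.z, .Pb, .b, .tz} ≤
      N * (S.κ + S.ι + ell M) :=
  ⟨m * 34, by positivity, fun _ _ S => conv1 S (by positivity)
    ((costd1 S).trans (le_of_eq (by ring)))⟩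

theorem d5' : ∃ N : ℝ, 0 ≤ N ∧ ∀ (M : ℕ) (G : Geo m M) (S : PSys G),
    HH (pY S) (VHY S) {.Pb', .w, .b', .tw, .tz, .z}
      - HH (pY S) (VHY S) {.Pb', .w, .b', .tw, .tz} ≤ N * (S.κ + S.ι + ell M) :=
  ⟨m * 80, by positivity, fun _ _ S => conv1 S (by positivity)
    ((costd5 S).trans (le_of_eq (by ring)))⟩

theorem c7' : ∃ N : ℝ, 0 ≤ N ∧ ∀ (M : ℕ) (G : Geo m M) (S : PSys G),
    HH (pY S) (VHY S) {.K, .l0, .R, .PR, .l1} - HH (pY S) (VHY S) {.K, .l0, .R, .PR} ≤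
      N * (S.κ + S.ι + ell M) := by
  obtain ⟨C, hC, h⟩ := Pool.Agent.Helper68.Kak.cost_c7 (Pool.Agent.Helper68.Kak.planeS m)
  exact ⟨C, hC, fun M G S => conv2 S hC (h M G S)⟩

theorem d2' : ∃ N : ℝ, 0 ≤ N ∧ ∀ (M : ℕ) (G : Geo m M) (S : PSys G),
    HH (pY S) (VHY S) {.K, .l1, .T1, .P1, .l0} - HH (pY S) (VHY S) {.K, .l1, .T1, .P1} ≤
      N * (S.κ + S.ι + ell M) := by
  obtain ⟨C, hC, h⟩ := Pool.Agent.Helper68.Kak.cost_d2 (Pool.Agent.Helper68.Kak.planeS m)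
  exact ⟨C, hC, fun M G S => conv2 S hC (h M G S)⟩

end Pool.Agent.Helper8.Hyb
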